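import Pool.Agent.H37.CNS.Stmts

/-!
Row ALT of the board cns: an alternating form on a finite group is a sum of products of homomorphisms which
vanish on its radical.
-/

set_option autoImplicit false

namespace Pool.CND

namespace ALTAux

open Finset

theorem main {p : ℕ} {G : Type} [Group G] [Fintype G] [Fact p.Prime] [DecidableEq G] (n : ℕ) :
    ∀ (ω : G → G → ZMod p), (Finset.univ.filter (fun g => ∃ h, ω g h ≠ 0)).card ≤ n →
    (∀ a b c : G, ω (a * b) c = ω a c + ω b c) → (∀ a b c : G, ω a (b * c) = ω a b + ω a c) →
    (∀ a : G, ω a a = 0) → ∃ (m : ℕ) (x y : Fin m → G → ZMod p),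
      (∀ i g h, x i (g * h) = x i g + x i h) ∧ (∀ i g h, y i (g * h) = y i g + y i h) ∧
      (∀ i g, (∀ h : G, ω g h = 0) → x i g = 0 ∧ y i g = 0) ∧
      ∀ a b : G, ω a b = ∑ i, (x i b * y i a - x i a * y i b) := by
  induction n with
  | zero =>
    intro ω hc h1 h2 h0
    have hz : ∀ a b, ω a b = 0 := by
      intro a b
      by_contra hab
      have : a ∈ (Finset.univ.filter (fun g => ∃ h, ω g h ≠ 0)) := by
        simp only [mem_filter, mem_univ, true_and]; exact ⟨b, hab⟩
      have h3 := Finset.card_pos.mpr ⟨a, this⟩
      omega
    refine ⟨0, fun _ _ => 0, fun _ _ => 0, fun i => i.elim0, fun i => i.elim0, fun i => i.elim0, ?_⟩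
    intro a b
    simp [hz]
  | succ n ih =>
    intro ω hc h1 h2 h0
    have anti : ∀ a b, ω a b = - ω b a := by
      intro a b
      have h := h0 (a * b)
      rw [h1, h2, h2, h0 a, h0 b] at h
      linear_combination h
    by_cases hall : ∀ a b, ω a b = 0
    · refine ⟨0, fun _ _ => 0, fun _ _ => 0, fun i => i.elim0, fun i => i.elim0, fun i => i.elim0, ?_⟩
      intro a b
      simp [hall]
    · push Not at hall
      obtain ⟨a, b, hab⟩ := hall
      set c := (ω a b)⁻¹ with hcdef
      have hcab : c * ω a b = 1 := inv_mul_cancel₀ hab
      let x0 : G → ZMod p := fun g => ω a g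
      let y0 : G → ZMod p := fun g => c * ω g b
      let ω' : G → G → ZMod p := fun g h => ω g h - (x0 h * y0 g - x0 g * y0 h)
      have hrad : ∀ g, (∀ h, ω g h = 0) → ∀ h, ω' g h = 0 := by
        intro g hg h
        have e1 : ω a g = 0 := by rw [anti, hg]; simp
        simp [ω', x0, y0, hg, e1]
      have hlt : (Finset.univ.filter (fun g => ∃ h, ω' g h ≠ 0)).card ≤ n := by
        have : (Finset.univ.filter (fun g => ∃ h, ω' g h ≠ 0)) ⊂
            (Finset.univ.filter (fun g => ∃ h, ω g h ≠ 0)) := by
          rw [Finset.ssubset_iff_of_subset]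
          · refine ⟨a, ?_, ?_⟩
            · simp only [mem_filter, mem_univ, true_and]; exact ⟨b, hab⟩
            · simp only [mem_filter, mem_univ, true_and]
              push Not
              intro h
              simp only [ω', x0, y0, h0 a]
              linear_combination (- ω a h) * hcab
          · intro g hg
            simp only [mem_filter, mem_univ, true_and] at hg ⊢
            by_contra hcon
            push Not at hcon
            obtain ⟨h, hh⟩ := hg
            exact hh (hrad g hcon h)
        have := Finset.card_lt_card this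
        omega
      obtain ⟨m, x, y, hx, hy, hr, hs⟩ := ih ω' hlt
        (by intro u v w; simp only [ω', x0, y0, h1, h2]; ring)
        (by intro u v w; simp only [ω', x0, y0, h1, h2]; ring)
        (by intro u; simp only [ω', x0, y0, h0]; ring)
      refine ⟨m + 1, Fin.cons x0 x, Fin.cons y0 y, ?_, ?_, ?_, ?_⟩
      · intro i
        refine Fin.cases ?_ (fun i => ?_) i
        · intro g h; simp only [Fin.cons_zero, x0, h2]
        · intro g h; simp only [Fin.cons_succ, hx]
      · intro i
        refine Fin.cases ?_ (fun i => ?_) i
        · intro g h; simp only [Fin.cons_zero, y0, h1]; ring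
        · intro g h; simp only [Fin.cons_succ, hy]
      · intro i
        refine Fin.cases ?_ (fun i => ?_) i
        · intro g hg
          have e1 : ω a g = 0 := by rw [anti, hg]; simp
          simp [Fin.cons_zero, x0, y0, hg, e1]
        · intro g hg
          simp only [Fin.cons_succ]
          exact hr i g (hrad g hg)
      · intro g h
        rw [Fin.sum_univ_succ]
        simp only [Fin.cons_zero, Fin.cons_succ]
        rw [← hs g h]
        simp only [ω']
        ring

end ALTAux

theorem alt_thm : S_ALT := by
  intro p G _ _ ω hp h1 h2 h0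
  haveI : Fact p.Prime := ⟨hp⟩
  haveI := Fintype.ofFinite G
  classical
  exact ALTAux.main _ ω le_rfl h1 h2 h0

end Pool.CND
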